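import Mathlib

set_option autoImplicit false

namespace Pool.Agent.Q279.MDp

open Finset

/-- the sub-tuple of `z` on `s` is multiplicatively dependent -/
def Dep {n : ℕ} (z : Fin n → ℤ) (s : Finset (Fin n)) : Prop :=
  ∃ e : Fin n → ℤ, (∃ i ∈ s, e i ≠ 0) ∧ ∏ i ∈ s, (z i : ℚ) ^ e i = 1

/-- `z` is `k`-multiplicatively dependent -/
def KDep {n : ℕ} (k : ℕ) (z : Fin n → ℤ) : Prop :=
  (∃ s : Finset (Fin n), s.card = k ∧ Dep z s) ∧ ∀ s : Finset (Fin n), s.card = k - 1 → ¬ Dep z s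

theorem kdep_of {n : ℕ} (hn : 1 ≤ n) (z ε : Fin n → ℤ) (hε : ∀ i, ε i ≠ 0) (hrel : ∏ i, (z i : ℚ) ^ ε i = 1)
    (huniq : ∀ e : Fin n → ℤ, ∏ i, (z i : ℚ) ^ e i = 1 → ∃ δ : ℤ, ∀ i, e i = δ * ε i) : KDep n z := by
  refine ⟨⟨univ, by simp, ε, ⟨⟨0, hn⟩, mem_univ _, hε _⟩, hrel⟩, ?_⟩
  rintro s hs ⟨e, ⟨i, hi, hei⟩, he⟩
  have h1 : ∃ j, j ∉ s := by
    by_contra h
    push Not at h
    have h2 : s = univ := eq_univ_of_forall h
    rw [h2, card_univ, Fintype.card_fin] at hs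
    omega
  obtain ⟨j, hj⟩ := h1
  classical
  obtain ⟨δ, hδ⟩ := huniq (fun i => if i ∈ s then e i else 0) (by
    rw [← he]
    rw [← Finset.prod_filter_mul_prod_filter_not univ (fun i => i ∈ s)]
    rw [show (univ.filter fun i => i ∈ s) = s by ext; simp]
    have h3 : ∏ x ∈ univ.filter (fun i => i ∉ s), (z x : ℚ) ^ (if x ∈ s then e x else 0) = 1 := by
      refine Finset.prod_eq_one fun x hx => ?_
      rw [mem_filter] at hx
      rw [if_neg hx.2, zpow_zero]
    rw [h3, mul_one]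
    exact Finset.prod_congr rfl fun x hx => by rw [if_pos hx])
  have h4 := hδ j
  simp only [if_neg hj] at h4
  have h5 : δ = 0 := by
    rcases mul_eq_zero.1 h4.symm with h | h
    · exact h
    · exact absurd h (hε j)
  have h6 := hδ i
  simp only [if_pos hi, h5, zero_mul] at h6
  exact hei h6

/-- an `n`-multiplicatively dependent `n`-tuple with `n ≥ 3` is injective -/
theorem inj_of {n : ℕ} (hn : 3 ≤ n) (z : Fin n → ℤ) (hz : ∀ i, z i ≠ 0) (h : KDep n z) : Function.Injective z := by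
  intro i j hij
  by_contra hne
  have h1 : ∃ s : Finset (Fin n), ({i, j} : Finset (Fin n)) ⊆ s ∧ s.card = n - 1 := by
    obtain ⟨s, h2, _, h3⟩ := Finset.exists_subsuperset_card_eq (subset_univ ({i, j} : Finset (Fin n)))
      (n := n - 1) (by rw [card_pair hne]; omega) (by rw [card_univ, Fintype.card_fin]; omega)
    exact ⟨s, h2, h3⟩
  obtain ⟨s, hs, hc⟩ := h1
  have hi : i ∈ s := hs (by simp)
  have hj : j ∈ s := hs (by simp)
  refine h.2 s hc ⟨fun x => if x = i then 1 else if x = j then -1 else 0, ⟨i, hi, by simp⟩, ?_⟩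
  have hzi : (z i : ℚ) ≠ 0 := by exact_mod_cast hz i
  rw [← Finset.mul_prod_erase s _ hi, ← Finset.mul_prod_erase (s.erase i) _ (mem_erase.2 ⟨fun h => hne h.symm, hj⟩)]
  have h4 : ∏ x ∈ (s.erase i).erase j, (z x : ℚ) ^ (if x = i then (1 : ℤ) else if x = j then -1 else 0) = 1 := by
    refine Finset.prod_eq_one fun x hx => ?_
    rw [mem_erase, mem_erase] at hx
    rw [if_neg hx.2.1, if_neg hx.1, zpow_zero]
  have h5 : (z i : ℚ) ^ (if i = i then (1 : ℤ) else if i = j then -1 else 0) = z i := by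
    rw [if_pos rfl, zpow_one]
  have h6 : (z j : ℚ) ^ (if j = i then (1 : ℤ) else if j = j then -1 else 0) = (z i : ℚ)⁻¹ := by
    rw [if_neg (fun h => hne h.symm), if_pos rfl, ← hij, zpow_neg_one]
  refine (congrArg₂ (· * ·) h5 (congrArg₂ (· * ·) h6 h4)).trans ?_
  simp only [mul_one]
  exact mul_inv_cancel₀ hzi

/-- tuples `(w, v, t, u₁, …, u_m)` with the relation `w t = v ∏ u_i ^ κ_i` -/
theorem block {m : ℕ} (w v t : ℤ) (u κ : Fin m → ℤ) (hκ : ∀ i, κ i ≠ 0) (hw : w ≠ 0) (hv : v ≠ 0) (ht : t ≠ 0)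
    (hu : ∀ i, u i ≠ 0) (hrel : (w : ℚ) * t = v * ∏ i, (u i : ℚ) ^ κ i)
    (huniq : ∀ (β γ δ : ℤ) (α : Fin m → ℤ),
      (w : ℚ) ^ β * ((v : ℚ) ^ γ * ((t : ℚ) ^ δ * ∏ i, (u i : ℚ) ^ α i)) = 1 →
        β = δ ∧ γ = -δ ∧ ∀ i, α i = -δ * κ i) :
    KDep (m + 3) (Fin.cons w (Fin.cons v (Fin.cons t u)) : Fin (m + 3) → ℤ) := by
  have hw' : (w : ℚ) ≠ 0 := by exact_mod_cast hw
  have hv' : (v : ℚ) ≠ 0 := by exact_mod_cast hv
  have ht' : (t : ℚ) ≠ 0 := by exact_mod_cast ht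
  have hu' : ∀ i, (u i : ℚ) ≠ 0 := fun i => by exact_mod_cast hu i
  have hP : (∏ i, (u i : ℚ) ^ κ i) ≠ 0 := Finset.prod_ne_zero_iff.2 fun i _ => zpow_ne_zero _ (hu' i)
  refine kdep_of (by omega) _ (Fin.cons 1 (Fin.cons (-1) (Fin.cons 1 fun i => -κ i)) : Fin (m + 3) → ℤ) ?_ ?_ ?_
  · intro i
    refine Fin.cases ?_ (fun i => ?_) i
    · simp
    refine Fin.cases ?_ (fun i => ?_) i
    · simp
    refine Fin.cases ?_ (fun i => ?_) i
    · simp only [Fin.cons_succ, Fin.cons_zero]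
      exact one_ne_zero
    simpa using hκ i
  · rw [Fin.prod_univ_succ, Fin.prod_univ_succ, Fin.prod_univ_succ]
    simp only [Fin.cons_zero, Fin.cons_succ, zpow_one, zpow_neg]
    rw [Finset.prod_inv_distrib]
    field_simp
    linarith [hrel]
  · intro e he
    rw [Fin.prod_univ_succ, Fin.prod_univ_succ, Fin.prod_univ_succ] at he
    simp only [Fin.cons_zero, Fin.cons_succ] at he
    obtain ⟨h1, h2, h3⟩ := huniq _ _ _ _ he
    refine ⟨e (Fin.succ (Fin.succ 0)), ?_⟩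
    intro i
    refine Fin.cases ?_ (fun i => ?_) i
    · simpa using h1
    refine Fin.cases ?_ (fun i => ?_) i
    · simp only [Fin.cons_zero, Fin.cons_succ]
      rw [h2]
      ring
    refine Fin.cases ?_ (fun i => ?_) i
    · simp only [Fin.cons_succ, Fin.cons_zero, mul_one]
    · simp only [Fin.cons_succ]
      rw [h3 i]
      ring

theorem val_zpow_prod {m : ℕ} (p : ℕ) [Fact p.Prime] (x : Fin m → ℚ) (hx : ∀ i, x i ≠ 0) (α : Fin m → ℤ) :
    padicValRat p (∏ i, x i ^ α i) = ∑ i, α i * padicValRat p (x i) := by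
  classical
  have h : ∀ s : Finset (Fin m), padicValRat p (∏ i ∈ s, x i ^ α i) = ∑ i ∈ s, α i * padicValRat p (x i) := by
    intro s
    induction s using Finset.induction_on with
    | empty => simp
    | insert a s ha ih =>
      rw [prod_insert ha, sum_insert ha, padicValRat.mul (zpow_ne_zero _ (hx a))
        (Finset.prod_ne_zero_iff.2 fun i _ => zpow_ne_zero _ (hx i)), ih, padicValRat.zpow]
  exact h univ

theorem val_zero {p : ℕ} {x : ℕ} (h : ¬ p ∣ x) : padicValRat p ((x : ℤ) : ℚ) = 0 := by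
  rw [Int.cast_natCast, padicValRat.of_nat, padicValNat.eq_zero_of_not_dvd h]
  rfl

theorem val_ne {p : ℕ} (hp : p.Prime) {x : ℕ} (hx : x ≠ 0) (h : p ∣ x) : padicValRat p ((x : ℤ) : ℚ) ≠ 0 := by
  have := Fact.mk hp
  rw [Int.cast_natCast, padicValRat.of_nat]
  have := one_le_padicValNat_of_dvd hx h
  omega

/-- The main algebraic statement: the tuple `(g c^m, g Y, (∏ b) Y, c b₁, …, c b_m)` is `(m + 3)`-multiplicatively
dependent if the `b_i` have private primes and `Y` has a prime which does not divide the other numbers. -/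
theorem core {m : ℕ} (g c Y : ℕ) (b : Fin m → ℕ) (hY0 : Y ≠ 0) (hb0 : ∀ i, b i ≠ 0) (hW : 1 < g * c ^ m)
    (l : ℕ) (hl : l.Prime) (hlY : l ∣ Y) (hlg : ¬ l ∣ g) (hlc : ¬ l ∣ c) (hlb : ∀ i, ¬ l ∣ b i)
    (hp : ∀ i, ∃ p : ℕ, p.Prime ∧ p ∣ b i ∧ ¬ p ∣ g ∧ ¬ p ∣ c ∧ ∀ j, j ≠ i → ¬ p ∣ b j) :
    KDep (m + 3) (Fin.cons ((g * c ^ m : ℕ) : ℤ) (Fin.cons ((g * Y : ℕ) : ℤ)
      (Fin.cons (((∏ i, b i) * Y : ℕ) : ℤ) fun i => ((c * b i : ℕ) : ℤ))) : Fin (m + 3) → ℤ) := by
  have hg0 : g ≠ 0 := by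
    rintro rfl
    simp at hW
  have hc0 : c ≠ 0 := by
    rintro rfl
    exact hlc (dvd_zero _)
  have hB0 : (∏ i, b i) ≠ 0 := Finset.prod_ne_zero_iff.2 fun i _ => hb0 i
  have hWn : g * c ^ m ≠ 0 := by omega
  have hVn : g * Y ≠ 0 := mul_ne_zero hg0 hY0
  have hZn : (∏ i, b i) * Y ≠ 0 := mul_ne_zero hB0 hY0
  have hun : ∀ i, c * b i ≠ 0 := fun i => mul_ne_zero hc0 (hb0 i)
  have hprod : ∏ i, ((c * b i : ℕ) : ℚ) = (c : ℚ) ^ m * ((∏ i, b i : ℕ) : ℚ) := by
    push_cast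
    rw [Finset.prod_mul_distrib, Finset.prod_const, card_univ, Fintype.card_fin]
  refine block _ _ _ _ (fun _ => 1) (by simp) (by exact_mod_cast hWn) (by exact_mod_cast hVn)
    (by exact_mod_cast hZn) (fun i => by exact_mod_cast hun i) ?_ ?_
  · simp only [Int.cast_natCast, zpow_one]
    rw [hprod]
    push_cast
    ring
  · intro β γ δ α h
    have key : ∀ (q : ℕ), q.Prime → β * padicValRat q (((g * c ^ m : ℕ) : ℤ) : ℚ) +
        (γ * padicValRat q (((g * Y : ℕ) : ℤ) : ℚ) + (δ * padicValRat q ((((∏ i, b i) * Y : ℕ) : ℤ) : ℚ) +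
          ∑ i, α i * padicValRat q (((c * b i : ℕ) : ℤ) : ℚ))) = 0 := by
      intro q hq
      have := Fact.mk hq
      have h1 := congrArg (padicValRat q) h
      rw [padicValRat.one, padicValRat.mul, padicValRat.mul, padicValRat.mul, padicValRat.zpow, padicValRat.zpow,
        padicValRat.zpow, val_zpow_prod] at h1
      · exact h1
      · intro i
        exact_mod_cast hun i
      · exact zpow_ne_zero _ (by exact_mod_cast hZn)
      · exact Finset.prod_ne_zero_iff.2 fun i _ => zpow_ne_zero _ (by exact_mod_cast hun i)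
      · exact zpow_ne_zero _ (by exact_mod_cast hVn)
      · exact mul_ne_zero (zpow_ne_zero _ (by exact_mod_cast hZn))
          (Finset.prod_ne_zero_iff.2 fun i _ => zpow_ne_zero _ (by exact_mod_cast hun i))
      · exact zpow_ne_zero _ (by exact_mod_cast hWn)
      · exact mul_ne_zero (zpow_ne_zero _ (by exact_mod_cast hVn)) (mul_ne_zero (zpow_ne_zero _ (by exact_mod_cast hZn))
          (Finset.prod_ne_zero_iff.2 fun i _ => zpow_ne_zero _ (by exact_mod_cast hun i)))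
    -- valuation of products of naturals
    have vmul : ∀ (q : ℕ), q.Prime → ∀ x y : ℕ, x ≠ 0 → y ≠ 0 → padicValRat q (((x * y : ℕ) : ℤ) : ℚ) =
        padicValRat q ((x : ℤ) : ℚ) + padicValRat q ((y : ℤ) : ℚ) := by
      intro q hq x y hx hy
      have := Fact.mk hq
      push_cast
      exact padicValRat.mul (by exact_mod_cast hx) (by exact_mod_cast hy)
    have hgam : γ = -δ := by
      have h1 := key l hl
      rw [vmul l hl g Y hg0 hY0, vmul l hl _ Y hB0 hY0] at h1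
      rw [val_zero (p := l) (x := g * c ^ m) (by
        rw [hl.dvd_mul, not_or]
        exact ⟨hlg, fun h => hlc (hl.dvd_of_dvd_pow h)⟩), val_zero hlg, val_zero (p := l) (x := ∏ i, b i) (by
        rw [Prime.dvd_finsetProd_iff hl.prime]
        rintro ⟨i, _, hi⟩
        exact hlb i hi)] at h1
      rw [Finset.sum_eq_zero (fun i _ => by
        rw [val_zero (p := l) (x := c * b i) (by
          rw [hl.dvd_mul, not_or]
          exact ⟨hlc, hlb i⟩), mul_zero])] at h1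
      have h2 := val_ne hl hY0 hlY
      have h3 : (γ + δ) * padicValRat l ((Y : ℤ) : ℚ) = 0 := by linarith
      rcases mul_eq_zero.1 h3 with h4 | h4
      · linarith
      · exact absurd h4 h2
    have halp : ∀ i, α i = -δ := by
      intro i
      obtain ⟨p, hpp, hpb, hpg, hpc, hpj⟩ := hp i
      have h1 := key p hpp
      have e1 : ∏ j, b j = b i * ∏ j ∈ univ.erase i, b j := (Finset.mul_prod_erase univ b (mem_univ i)).symm
      have hE0 : (∏ j ∈ univ.erase i, b j) ≠ 0 := Finset.prod_ne_zero_iff.2 fun j _ => hb0 j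
      rw [vmul p hpp g Y hg0 hY0, vmul p hpp _ Y hB0 hY0, e1, vmul p hpp _ _ (hb0 i) hE0] at h1
      rw [val_zero (p := p) (x := g * c ^ m) (by
        rw [hpp.dvd_mul, not_or]
        exact ⟨hpg, fun h => hpc (hpp.dvd_of_dvd_pow h)⟩), val_zero hpg,
        val_zero (p := p) (x := ∏ j ∈ univ.erase i, b j) (by
        rw [Prime.dvd_finsetProd_iff hpp.prime]
        rintro ⟨j, hj, hj2⟩
        exact hpj j (mem_erase.1 hj).1 hj2)] at h1
      rw [← Finset.add_sum_erase univ _ (mem_univ i), Finset.sum_eq_zero (s := univ.erase i) (fun j hj => by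
        rw [val_zero (p := p) (x := c * b j) (by
          rw [hpp.dvd_mul, not_or]
          exact ⟨hpc, hpj j (mem_erase.1 hj).1⟩), mul_zero]), vmul p hpp c (b i) hc0 (hb0 i), val_zero hpc] at h1
      have h2 := val_ne hpp (hb0 i) hpb
      rw [hgam] at h1
      have h3 : (δ + α i) * padicValRat p ((b i : ℤ) : ℚ) = 0 := by linarith
      rcases mul_eq_zero.1 h3 with h4 | h4
      · linarith
      · exact absurd h4 h2
    have hbet : β = δ := by
      rw [hgam] at h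
      have e1 : ∏ i, ((((c * b i : ℕ) : ℤ) : ℚ)) ^ α i = ((c : ℚ) ^ m * ((∏ i, b i : ℕ) : ℚ)) ^ (-δ) := by
        rw [← hprod, ← Finset.prod_zpow]
        refine Finset.prod_congr rfl fun i _ => ?_
        rw [halp i, Int.cast_natCast]
      rw [e1] at h
      have hgq : (g : ℚ) ≠ 0 := by exact_mod_cast hg0
      have hcq : (c : ℚ) ≠ 0 := by exact_mod_cast hc0
      have hYq : (Y : ℚ) ≠ 0 := by exact_mod_cast hY0
      have hBq : ((∏ i, b i : ℕ) : ℚ) ≠ 0 := by exact_mod_cast hB0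
      have h2 : ((g * c ^ m : ℕ) : ℚ) ^ (β - δ) = 1 := by
        rw [← h]
        have hWq : ((g * c ^ m : ℕ) : ℚ) ≠ 0 := by exact_mod_cast hWn
        have e2 : (((g * Y : ℕ) : ℤ) : ℚ) ^ (-δ) * (((((∏ i, b i) * Y : ℕ) : ℤ) : ℚ) ^ δ *
            ((c : ℚ) ^ m * ((∏ i, b i : ℕ) : ℚ)) ^ (-δ)) = ((g * c ^ m : ℕ) : ℚ) ^ (-δ) := by
          rw [zpow_neg, zpow_neg, zpow_neg, ← inv_zpow, ← inv_zpow, ← inv_zpow, ← mul_zpow, ← mul_zpow]
          congr 1
          push_cast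
          push_cast at hBq
          field_simp
        rw [e2, Int.cast_natCast, ← zpow_add₀ hWq]
        rfl
      by_contra hne
      have h3 : (1 : ℚ) < ((g * c ^ m : ℕ) : ℚ) := by exact_mod_cast hW
      rcases lt_or_gt_of_ne (sub_ne_zero.2 hne) with h4 | h4
      · have := zpow_lt_one_of_neg₀ h3 h4
        linarith
      · have := one_lt_zpow₀ h3 h4
        linarith
    exact ⟨hbet, hgam, fun i => by rw [halp i, mul_one]⟩

end Pool.Agent.Q279.MDp
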