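import Pool.Agent.Q279.MDp.Basic

set_option autoImplicit false

namespace Pool.Agent.Q279.MDp

open Finset

/-- the partial products `P_i` of the numbers `u_j = M + g c ^ (m - j) P_j` -/
def P (M g c m : ℕ) : ℕ → ℕ
  | 0 => 1
  | i + 1 => P M g c m i * (M + g * c ^ (m - i) * P M g c m i)

def u (M g c m i : ℕ) : ℕ := M + g * c ^ (m - i) * P M g c m i

def B (M g c m i : ℕ) : ℕ := 1 + g * c ^ (m - 1 - i) * P M g c m i

def Q (M g c m i : ℕ) : ℕ := ∏ j ∈ range i, B M g c m j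

theorem P_succ (M g c m i : ℕ) : P M g c m (i + 1) = P M g c m i * u M g c m i := rfl

theorem P_eq (M g c m i : ℕ) : P M g c m i = ∏ j ∈ range i, u M g c m j := by
  induction i with
  | zero => rfl
  | succ i ih => rw [prod_range_succ, ← ih, P_succ]

theorem Q_succ (M g c m i : ℕ) : Q M g c m (i + 1) = Q M g c m i * B M g c m i := by
  rw [Q, prod_range_succ, Q]

theorem u_dvd_P (M g c m : ℕ) {i j : ℕ} (h : i < j) : u M g c m i ∣ P M g c m j := by
  rw [P_eq]
  exact dvd_prod_of_mem _ (mem_range.2 h)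

theorem B_dvd_Q (M g c m : ℕ) {i j : ℕ} (h : i < j) : B M g c m i ∣ Q M g c m j :=
  dvd_prod_of_mem _ (mem_range.2 h)

theorem shift (M g m i : ℕ) (hi : i < m) : u M g (M + 1) m i + 1 = (M + 1) * B M g (M + 1) m i := by
  obtain ⟨k, rfl⟩ : ∃ k, m = i + 1 + k := ⟨m - (i + 1), by omega⟩
  rw [u, B, show i + 1 + k - i = k + 1 by omega, show i + 1 + k - 1 - i = k by omega]
  ring

theorem inv (M g m w : ℕ) (hw : w + 1 = g * (M + 1) ^ m) (i : ℕ) (hi : i ≤ m) :
    w * Q M g (M + 1) m i + 1 = g * (M + 1) ^ (m - i) * P M g (M + 1) m i := by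
  induction i with
  | zero => simp [Q, P, hw]
  | succ i ih =>
    have ih := ih (by omega)
    rw [Q_succ, P_succ, B, u]
    rw [show m - i = (m - (i + 1)) + 1 by omega] at ih
    rw [show m - i = (m - (i + 1)) + 1 by omega, show m - 1 - i = m - (i + 1) by omega]
    set x := (M + 1) ^ (m - (i + 1)) with hx
    rw [pow_succ, ← hx] at ih
    rw [pow_succ, ← hx]
    set p := P M g (M + 1) m i
    set q := Q M g (M + 1) m i
    calc w * (q * (1 + g * x * p)) + 1 = (w * q + 1) + w * q * (g * x * p) := by ring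
      _ = g * (x * (M + 1)) * p + w * q * (g * x * p) := by rw [ih]
      _ = g * x * p * (M + (w * q + 1)) := by ring
      _ = g * x * p * (M + g * (x * (M + 1)) * p) := by rw [ih]
      _ = g * x * (p * (M + g * (x * (M + 1)) * p)) := by ring

theorem P_pos (M g c m : ℕ) (hM : 0 < M) (i : ℕ) : 0 < P M g c m i := by
  rw [P_eq]
  refine prod_pos fun j _ => ?_
  rw [u]
  omega

section mods

variable {r M g : ℕ} (m : ℕ) (hM : (M : ZMod r) = 0) (hg : (g : ZMod r) = 2)

include hM hg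

theorem P_mod (i : ℕ) : (2 : ZMod r) * (P M g (M + 1) m i : ZMod r) = 2 ^ 2 ^ i := by
  induction i with
  | zero => simp [P]
  | succ i ih =>
    rw [P_succ, u]
    push_cast
    rw [hM, hg, zero_add, zero_add, one_pow, mul_one, ih, pow_succ, pow_mul, ← ih]
    ring

theorem u_mod (i : ℕ) : (u M g (M + 1) m i : ZMod r) = 2 ^ 2 ^ i := by
  rw [u]
  push_cast
  rw [hM, hg, zero_add, zero_add, one_pow, mul_one, P_mod m hM hg]

theorem B_mod (i : ℕ) : (B M g (M + 1) m i : ZMod r) = 1 + 2 ^ 2 ^ i := by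
  rw [B]
  push_cast
  rw [hM, hg, zero_add, one_pow, mul_one, P_mod m hM hg]

theorem Q_mod (i : ℕ) : (Q M g (M + 1) m i : ZMod r) = 2 ^ 2 ^ i - 1 := by
  induction i with
  | zero => simp [Q]; norm_num
  | succ i ih =>
    rw [Q_succ]
    push_cast
    rw [ih, B_mod m hM hg, pow_succ 2 i, pow_mul]
    ring

end mods

/-- the modulus of the construction -/
def MM (m : ℕ) : ℕ := (2 ^ 2 ^ m - 3) * (2 ^ (2 ^ m - 1) - 1)

theorem two_dvd_aux {m : ℕ} (hm : 2 ≤ m) : 4 ≤ 2 ^ m := by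
  calc 4 = 2 ^ 2 := by norm_num
    _ ≤ 2 ^ m := Nat.pow_le_pow_right (by norm_num) hm

theorem pow_ge {m : ℕ} (hm : 2 ≤ m) : 16 ≤ 2 ^ 2 ^ m := by
  calc 16 = 2 ^ 4 := by norm_num
    _ ≤ 2 ^ 2 ^ m := Nat.pow_le_pow_right (by norm_num) (two_dvd_aux hm)

theorem pow_ge' {m : ℕ} (hm : 2 ≤ m) : 8 ≤ 2 ^ (2 ^ m - 1) := by
  have := two_dvd_aux hm
  calc 8 = 2 ^ 3 := by norm_num
    _ ≤ 2 ^ (2 ^ m - 1) := Nat.pow_le_pow_right (by norm_num) (by omega)

theorem even_pow' (m : ℕ) : 2 ∣ 2 ^ 2 ^ m := dvd_pow_self 2 (by positivity)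

theorem even_pow'' {m : ℕ} (hm : 2 ≤ m) : 2 ∣ 2 ^ (2 ^ m - 1) :=
  dvd_pow_self 2 (by have := two_dvd_aux hm; omega)

theorem MM_odd {m : ℕ} (hm : 2 ≤ m) {p : ℕ} (hp : p.Prime) (h : p ∣ MM m) : p ≠ 2 := by
  rintro rfl
  have h1 := pow_ge hm
  have h2 := pow_ge' hm
  have h3 := even_pow' m
  have h4 := even_pow'' hm
  rcases (Nat.Prime.dvd_mul hp).1 h with h | h <;> omega

theorem MM_pos {m : ℕ} (hm : 2 ≤ m) : 0 < MM m := by
  have h1 := pow_ge hm
  have h2 := pow_ge' hm
  exact Nat.mul_pos (by omega) (by omega)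

theorem two_ne {p : ℕ} (hp : p.Prime) (h2 : p ≠ 2) : (2 : ZMod p) ≠ 0 := by
  intro h
  have : ((2 : ℕ) : ZMod p) = 0 := by exact_mod_cast h
  rw [ZMod.natCast_eq_zero_iff] at this
  exact h2 ((Nat.prime_dvd_prime_iff_eq hp Nat.prime_two).1 this)

/-- The infinite family. -/
theorem fam (m s : ℕ) (hm : 2 ≤ m) : ∃ a : Fin (m + 3) → ℤ, (∀ i, 1 < a i) ∧ KDep (m + 3) a ∧
    KDep (m + 3) (fun i => a i + 1) ∧ (s : ℤ) < a 0 := by
  obtain ⟨M, hMdef⟩ : ∃ M, M = MM m := ⟨_, rfl⟩
  have hMpos : 0 < M := hMdef ▸ MM_pos hm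
  obtain ⟨h, hh⟩ : ∃ h, h = 1 + M * s := ⟨_, rfl⟩
  obtain ⟨g, hgdef⟩ : ∃ g, g = (M + 1) * (M + 2) * h := ⟨_, rfl⟩
  have hhpos : 0 < h := by omega
  have hhs : s < h := by nlinarith
  have hgpos : 0 < g := by rw [hgdef]; positivity
  have hgh : h ≤ g := by
    rw [hgdef]
    exact Nat.le_mul_of_pos_left h (by positivity)
  have hg2 : 6 ≤ g := by
    rw [hgdef]
    calc 6 ≤ (M + 1) * (M + 2) * 1 := by nlinarith
      _ ≤ (M + 1) * (M + 2) * h := Nat.mul_le_mul_left _ hhpos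
  have hcpos : 0 < M + 1 := by omega
  -- the numbers
  obtain ⟨w, hw⟩ : ∃ w, w + 1 = g * (M + 1) ^ m :=
    ⟨g * (M + 1) ^ m - 1, Nat.sub_add_cancel (Nat.mul_pos hgpos (by positivity))⟩
  have hPpos := P_pos M g (M + 1) m hMpos
  have hinv := inv M g m w hw
  have hshift := shift M g m
  set c := M + 1 with hc
  have hupos : ∀ i, 1 < u M g c m i := by
    intro i
    have : 0 < g * c ^ (m - i) * P M g c m i := Nat.mul_pos (Nat.mul_pos hgpos (by positivity)) (hPpos i)
    rw [u]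
    omega
  have hBpos : ∀ i, 1 < B M g c m i := by
    intro i
    have : 0 < g * c ^ (m - 1 - i) * P M g c m i := Nat.mul_pos (Nat.mul_pos hgpos (by positivity)) (hPpos i)
    rw [B]
    omega
  have hQpos : 0 < Q M g c m m := prod_pos fun j _ => by have := hBpos j; omega
  have hend : w * Q M g c m m + 1 = g * P M g c m m := by
    have := hinv m le_rfl
    rwa [Nat.sub_self, pow_zero, mul_one] at this
  -- T
  have hQg : g < Q M g c m m := by
    have h1 : B M g c m 0 ≤ Q M g c m m := Nat.le_of_dvd hQpos (B_dvd_Q M g c m (by omega))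
    have h2 : g < B M g c m 0 := by
      rw [B]
      have : g * 1 ≤ g * c ^ (m - 1 - 0) := Nat.mul_le_mul_left g (Nat.one_le_pow _ _ (by omega))
      have h3 : P M g c m 0 = 1 := rfl
      rw [h3]
      omega
    omega
  obtain ⟨T, hT⟩ : ∃ T, T + g = Q M g c m m := ⟨Q M g c m m - g, by omega⟩
  have hTpos : 0 < T := by omega
  have hUw : w < P M g c m m := by
    have h1 : u M g c m 0 ≤ P M g c m m := Nat.le_of_dvd (hPpos m) (u_dvd_P M g c m (by omega))
    have h2 : w < u M g c m 0 := by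
      rw [u]
      have h3 : P M g c m 0 = 1 := rfl
      rw [h3, Nat.sub_zero, ← hw]
      omega
    omega
  obtain ⟨Y, hY⟩ : ∃ Y, Y + w = P M g c m m := ⟨P M g c m m - w, by omega⟩
  have hYpos : 0 < Y := by omega
  have hv1 : w * T + 1 = g * Y := by
    have h1 : w * (T + g) + 1 = g * (Y + w) := by rw [hT, hY, hend]
    nlinarith
  have hz1 : P M g c m m * T + 1 = Q M g c m m * Y := by
    have h1 : P M g c m m * (T + g) = (Y + w) * Q M g c m m := by rw [hT, hY]
    have h2 : P M g c m m * g = w * Q M g c m m + 1 := by rw [hend]; ring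
    nlinarith
  have hwpos : 1 < w := by
    have : g * 1 ≤ g * c ^ m := Nat.mul_le_mul_left g (Nat.one_le_pow _ _ (by omega))
    omega
  have hsw : s < w := by
    have h1 : g * c ≤ g * c ^ m := Nat.mul_le_mul_left g (Nat.le_self_pow (by omega) c)
    have h2 : h * 2 ≤ g * c := Nat.mul_le_mul hgh (by omega)
    omega
  -- residues modulo the divisors of `M`
  have hMmod : ∀ r, r ∣ M → (M : ZMod r) = 0 := fun r hr => (ZMod.natCast_eq_zero_iff M r).2 hr
  have hgmod : ∀ r, r ∣ M → (g : ZMod r) = 2 := by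
    intro r hr
    rw [hgdef, hh, hc]
    push_cast
    rw [hMmod r hr]
    ring
  have hcmod : ∀ r, r ∣ M → (c : ZMod r) = 1 := by
    intro r hr
    rw [hc]
    push_cast
    rw [hMmod r hr, zero_add]
  have hwmod : ∀ r, r ∣ M → (w : ZMod r) = 1 := by
    intro r hr
    have h1 : ((w + 1 : ℕ) : ZMod r) = ((g * c ^ m : ℕ) : ZMod r) := by rw [hw]
    push_cast at h1
    rw [hgmod r hr, hcmod r hr, one_pow, mul_one] at h1
    linear_combination h1
  have hnz : ∀ {p : ℕ}, p.Prime → ∀ {x : ℕ}, (x : ZMod p) ≠ 0 → ¬ p ∣ x := by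
    intro p _ x hx hd
    exact hx ((ZMod.natCast_eq_zero_iff x p).2 hd)
  have hodd : ∀ {p : ℕ}, p.Prime → p ∣ M → p ≠ 2 := fun hp hd => MM_odd hm hp (hMdef ▸ hd)
  -- primes of `u_i`
  have huM : ∀ i {p : ℕ}, p.Prime → p ∣ u M g c m i → ¬ p ∣ M := by
    intro i p hp hd hM
    have h1 := u_mod m (hMmod p hM) (hgmod p hM) i
    rw [← hc, (ZMod.natCast_eq_zero_iff _ p).2 hd] at h1
    have := Fact.mk hp
    exact two_ne hp (hodd hp hM) (pow_eq_zero_iff (by positivity) |>.1 h1.symm)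
  have hulift : ∀ {i j : ℕ} {p : ℕ}, i < j → p.Prime → p ∣ u M g c m i → p ∣ u M g c m j → False := by
    intro i j p hij hp hi hj
    have h1 : p ∣ P M g c m j := hi.trans (u_dvd_P M g c m hij)
    refine huM i hp hi ?_
    rw [u] at hj
    exact (Nat.dvd_add_left (dvd_mul_of_dvd_right h1 _)).1 hj
  have hupriv : ∀ (i j : Fin m) {p : ℕ}, p.Prime → p ∣ u M g c m i → j ≠ i → ¬ p ∣ u M g c m j := by
    intro i j p hp hi hji hj
    rcases lt_or_gt_of_ne (fun h => hji (Fin.ext h) : (j : ℕ) ≠ i) with h | h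
    · exact hulift h hp hj hi
    · exact hulift h hp hi hj
  have huw : ∀ i, i < m → ∀ {p : ℕ}, p.Prime → p ∣ u M g c m i → ¬ p ∣ w := by
    intro i him p hp hi hd
    have h1 := hinv i him.le
    have h2 : p ∣ c := by
      have h3 : u M g c m i = w * Q M g c m i + c := by
        rw [u, ← h1]
        omega
      rw [h3] at hi
      exact (Nat.dvd_add_right (dvd_mul_of_dvd_left hd _)).1 hi
    have h3 : p ∣ w + 1 := by
      rw [hw]
      exact dvd_mul_of_dvd_right (dvd_pow h2 (by omega)) _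
    exact hp.one_lt.ne' (Nat.dvd_one.1 ((Nat.dvd_add_right hd).1 h3))
  -- primes of `B_i`
  have hBg : ∀ i {p : ℕ}, p.Prime → p ∣ B M g c m i → ¬ p ∣ g := by
    intro i p hp hi hd
    rw [B] at hi
    exact hp.one_lt.ne' (Nat.dvd_one.1 ((Nat.dvd_add_left (by
      exact dvd_mul_of_dvd_left (dvd_mul_of_dvd_left hd _) _)).1 hi))
  have hcg : c ∣ g := by
    rw [hgdef, mul_assoc]
    exact dvd_mul_right _ _
  have hc1g : c + 1 ∣ g := by
    rw [hgdef, mul_comm c, mul_assoc]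
    exact dvd_mul_right _ _
  have hBlift : ∀ {i j : ℕ} {p : ℕ}, i < j → j < m → p.Prime → p ∣ B M g c m i → p ∣ B M g c m j → False := by
    intro i j p hij hjm hp hi hj
    have h1 : p ∣ Q M g c m j := hi.trans (B_dvd_Q M g c m hij)
    have h2 := hinv j hjm.le
    have h3 : u M g c m j + 1 = w * Q M g c m j + (c + 1) := by
      rw [u, ← h2]
      omega
    have h4 : p ∣ u M g c m j + 1 := by
      rw [hshift j hjm]
      exact dvd_mul_of_dvd_right hj _
    rw [h3] at h4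
    exact hBg i hp hi (((Nat.dvd_add_right (dvd_mul_of_dvd_right h1 _)).1 h4).trans hc1g)
  have hBpriv : ∀ (i j : Fin m) {p : ℕ}, p.Prime → p ∣ B M g c m i → j ≠ i → ¬ p ∣ B M g c m j := by
    intro i j p hp hi hji hj
    rcases lt_or_gt_of_ne (fun h => hji (Fin.ext h) : (j : ℕ) ≠ i) with h | h
    · exact hBlift h i.2 hp hj hi
    · exact hBlift h j.2 hp hi hj
  have hpw := pow_ge hm
  have hpw' := pow_ge' hm
  have eU : ∏ i : Fin m, u M g c m i = P M g c m m := by
    rw [P_eq, Fin.prod_univ_eq_prod_range (fun j => u M g c m j) m]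
  have eQ : ∏ i : Fin m, B M g c m i = Q M g c m m := by
    rw [Q, Fin.prod_univ_eq_prod_range (fun j => B M g c m j) m]
  -- the original tuple
  have H1 : KDep (m + 3) (Fin.cons (w : ℤ) (Fin.cons ((w * T : ℕ) : ℤ)
      (Fin.cons ((P M g c m m * T : ℕ) : ℤ) fun i : Fin m => (u M g c m i : ℤ))) : Fin (m + 3) → ℤ) := by
    obtain ⟨l, hl, hld⟩ := Nat.exists_prime_and_dvd (n := 2 ^ 2 ^ m - 3) (by omega)
    have hlM : l ∣ M := hMdef ▸ (dvd_mul_of_dvd_left hld _)
    have hl2 := two_ne hl (hodd hl hlM)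
    have := Fact.mk hl
    have h3 : (2 : ZMod l) ^ 2 ^ m = 3 := by
      have e1 : 2 ^ 2 ^ m = (2 ^ 2 ^ m - 3) + 3 := by omega
      have e2 : ((2 ^ 2 ^ m : ℕ) : ZMod l) = (((2 ^ 2 ^ m - 3) + 3 : ℕ) : ZMod l) := by rw [← e1]
      rw [Nat.cast_add, (ZMod.natCast_eq_zero_iff _ l).2 hld, zero_add] at e2
      exact_mod_cast e2
    have hlT : l ∣ T := by
      rw [← ZMod.natCast_eq_zero_iff]
      have e1 : ((T + g : ℕ) : ZMod l) = (Q M g c m m : ZMod l) := by rw [hT]
      rw [Nat.cast_add, hgmod l hlM, hc, Q_mod m (hMmod l hlM) (hgmod l hlM) m, h3] at e1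
      linear_combination e1
    have hk := core (m := m) w 1 T (fun i => u M g c m i) hTpos.ne' (fun i => by
      have := hupos i
      omega) (by simpa using hwpos) l hl hlT (hnz hl (by rw [hwmod l hlM]; exact one_ne_zero))
      (fun h => hl.one_lt.ne' (Nat.dvd_one.1 h)) (fun i => hnz hl (by
        rw [hc, u_mod m (hMmod l hlM) (hgmod l hlM)]
        exact pow_ne_zero _ hl2)) (fun i => by
        obtain ⟨p, hp, hpd⟩ := Nat.exists_prime_and_dvd (n := u M g c m i) (hupos i).ne'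
        exact ⟨p, hp, hpd, huw i i.2 hp hpd, fun h => hp.one_lt.ne' (Nat.dvd_one.1 h),
          fun j hj => hupriv i j hp hpd hj⟩)
    simp only [one_pow, mul_one, one_mul] at hk
    rw [eU] at hk
    exact hk
  have H2 : KDep (m + 3) (Fin.cons ((g * c ^ m : ℕ) : ℤ) (Fin.cons ((g * Y : ℕ) : ℤ)
      (Fin.cons ((Q M g c m m * Y : ℕ) : ℤ) fun i : Fin m => ((c * B M g c m i : ℕ) : ℤ))) : Fin (m + 3) → ℤ) := by
    obtain ⟨l, hl, hld⟩ := Nat.exists_prime_and_dvd (n := 2 ^ (2 ^ m - 1) - 1) (by omega)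
    have hlM : l ∣ M := hMdef ▸ (dvd_mul_of_dvd_right hld _)
    have hl2 := two_ne hl (hodd hl hlM)
    have := Fact.mk hl
    have h3 : (2 : ZMod l) ^ (2 ^ m - 1) = 1 := by
      have e1 : 2 ^ (2 ^ m - 1) = (2 ^ (2 ^ m - 1) - 1) + 1 := by omega
      have e2 : ((2 ^ (2 ^ m - 1) : ℕ) : ZMod l) = (((2 ^ (2 ^ m - 1) - 1) + 1 : ℕ) : ZMod l) := by rw [← e1]
      rw [Nat.cast_add, (ZMod.natCast_eq_zero_iff _ l).2 hld, zero_add] at e2
      exact_mod_cast e2
    have h4 : (2 : ZMod l) ^ 2 ^ m = 2 := by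
      have e1 : 2 ^ m = (2 ^ m - 1) + 1 := (Nat.sub_add_cancel (Nat.one_le_two_pow)).symm
      rw [e1, pow_succ, h3, one_mul]
    have hlY : l ∣ Y := by
      rw [← ZMod.natCast_eq_zero_iff]
      have e1 : ((Y + w : ℕ) : ZMod l) = (P M g c m m : ZMod l) := by rw [hY]
      rw [Nat.cast_add, hwmod l hlM] at e1
      have e2 := P_mod m (hMmod l hlM) (hgmod l hlM) m
      rw [← hc, ← e1, h4] at e2
      have e3 : (2 : ZMod l) * (Y : ZMod l) = 0 := by linear_combination e2
      rcases mul_eq_zero.1 e3 with h | h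
      · exact absurd h hl2
      · exact h
    have hk := core (m := m) g c Y (fun i => B M g c m i) hYpos.ne' (fun i => by
      have := hBpos i
      omega) (by omega) l hl hlY (hnz hl (by rw [hgmod l hlM]; exact hl2))
      (hnz hl (by rw [hcmod l hlM]; exact one_ne_zero)) (fun i => hnz hl (by
        rw [hc, B_mod m (hMmod l hlM) (hgmod l hlM)]
        intro h5
        have h6 : (2 : ZMod l) ^ 2 ^ (i : ℕ) = -1 := by linear_combination h5
        have h7 : (2 : ZMod l) ^ 2 ^ m = 1 := by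
          obtain ⟨k, hk⟩ : ∃ k, m = (i : ℕ) + 1 + k := ⟨m - (i + 1), by omega⟩
          have h8 : 2 ^ m = 2 ^ (i : ℕ) * (2 * 2 ^ k) := by rw [← pow_succ', ← pow_add]; congr 1; omega
          rw [h8, pow_mul, h6, pow_mul]
          norm_num
        rw [h4] at h7
        have h9 : (1 : ZMod l) = 0 := by linear_combination h7
        exact one_ne_zero h9)) (fun i => by
        obtain ⟨p, hp, hpd⟩ := Nat.exists_prime_and_dvd (n := B M g c m i) (hBpos i).ne'
        exact ⟨p, hp, hpd, hBg i hp hpd, fun h => hBg i hp hpd (h.trans hcg),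
          fun j hj => hBpriv i j hp hpd hj⟩)
    rw [eQ] at hk
    exact hk
  refine ⟨_, ?_, H1, ?_, ?_⟩
  · intro i
    refine Fin.cases ?_ (fun i => ?_) i
    · simp only [Fin.cons_zero]
      exact_mod_cast hwpos
    refine Fin.cases ?_ (fun i => ?_) i
    · simp only [Fin.cons_zero, Fin.cons_succ]
      have : w * 1 ≤ w * T := Nat.mul_le_mul_left w hTpos
      exact_mod_cast (by omega : 1 < w * T)
    refine Fin.cases ?_ (fun i => ?_) i
    · simp only [Fin.cons_zero, Fin.cons_succ]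
      have : P M g c m m * 1 ≤ P M g c m m * T := Nat.mul_le_mul_left _ hTpos
      exact_mod_cast (by omega : 1 < P M g c m m * T)
    · simp only [Fin.cons_succ]
      exact_mod_cast hupos i
  · convert H2 using 1
    funext i
    refine Fin.cases ?_ (fun i => ?_) i
    · simp only [Fin.cons_zero]
      exact_mod_cast hw
    refine Fin.cases ?_ (fun i => ?_) i
    · simp only [Fin.cons_zero, Fin.cons_succ]
      exact_mod_cast hv1
    refine Fin.cases ?_ (fun i => ?_) i
    · simp only [Fin.cons_zero, Fin.cons_succ]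
      exact_mod_cast hz1
    · simp only [Fin.cons_succ]
      exact_mod_cast hshift i i.2
  · simp only [Fin.cons_zero]
    exact_mod_cast hsw

end Pool.Agent.Q279.MDp
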