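import Pool.Agent.Q279.MDp.Basic

set_option autoImplicit false

namespace Pool.Agent.Q279.MDp

open Finset

theorem indep_aux (X Y Z : ℕ) (hX : 1 < X) (hY : Y ≠ 0) (hZ : Z ≠ 0) (hXY : X.Coprime Y) (hXZ : X.Coprime Z)
    (a b c : ℤ) (h : (X : ℚ) ^ a * ((Y : ℚ) ^ b * (Z : ℚ) ^ c) = 1) : a = 0 := by
  obtain ⟨p, hp, hpX⟩ := Nat.exists_prime_and_dvd hX.ne'
  have := Fact.mk hp
  have hX0 : (X : ℚ) ≠ 0 := by exact_mod_cast (by omega : X ≠ 0)
  have hY0 : (Y : ℚ) ≠ 0 := by exact_mod_cast hY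
  have hZ0 : (Z : ℚ) ≠ 0 := by exact_mod_cast hZ
  have h1 := congrArg (padicValRat p) h
  rw [padicValRat.one, padicValRat.mul (zpow_ne_zero _ hX0) (mul_ne_zero (zpow_ne_zero _ hY0) (zpow_ne_zero _ hZ0)),
    padicValRat.mul (zpow_ne_zero _ hY0) (zpow_ne_zero _ hZ0), padicValRat.zpow, padicValRat.zpow,
    padicValRat.zpow] at h1
  have hpY : ¬ p ∣ Y := fun h => hp.one_lt.ne' (Nat.dvd_one.1 (hXY ▸ Nat.dvd_gcd hpX h))
  have hpZ : ¬ p ∣ Z := fun h => hp.one_lt.ne' (Nat.dvd_one.1 (hXZ ▸ Nat.dvd_gcd hpX h))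
  have e1 := val_zero hpY
  have e2 := val_zero hpZ
  have e3 := val_ne hp (by omega : X ≠ 0) hpX
  rw [Int.cast_natCast] at e1 e2 e3
  rw [e1, e2, mul_zero, mul_zero, add_zero, add_zero] at h1
  rcases mul_eq_zero.1 h1 with h | h
  · exact h
  · exact absurd h e3

theorem indep (X Y Z : ℕ) (hX : 1 < X) (hY : 1 < Y) (hZ : 1 < Z) (hXY : X.Coprime Y) (hXZ : X.Coprime Z)
    (hYZ : Y.Coprime Z) (a b c : ℤ) (h : (X : ℚ) ^ a * ((Y : ℚ) ^ b * (Z : ℚ) ^ c) = 1) :
    a = 0 ∧ b = 0 ∧ c = 0 := by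
  refine ⟨indep_aux X Y Z hX (by omega) (by omega) hXY hXZ a b c h,
    indep_aux Y X Z hY (by omega) (by omega) hXY.symm hYZ b a c (by rw [← h]; ring),
    indep_aux Z X Y hZ (by omega) (by omega) hXZ.symm hYZ.symm c a b (by rw [← h]; ring)⟩

/-- the quadruples `(k, k (4 k + 3), (2 k + 1)² (4 k + 3), 2 k + 1)` -/
theorem four (s : ℕ) : ∃ a : Fin 4 → ℤ, (∀ i, 1 < a i) ∧ KDep 4 a ∧ KDep 4 (fun i => a i + 1) ∧ (s : ℤ) < a 0 := by
  obtain ⟨k, hk⟩ : ∃ k, k = 6 * s + 2 := ⟨_, rfl⟩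
  have c1 : Nat.Coprime k (4 * k + 3) := by
    have h1 : Nat.Coprime k 3 := by
      rw [hk, Nat.coprime_comm, Nat.Prime.coprime_iff_not_dvd Nat.prime_three]
      omega
    have := (Nat.coprime_add_mul_right_right k 3 4).2 h1
    rwa [show 3 + 4 * k = 4 * k + 3 by ring] at this
  have c2 : Nat.Coprime k (2 * k + 1) := by
    have := (Nat.coprime_add_mul_right_right k 1 2).2 (Nat.coprime_one_right k)
    rwa [show 1 + 2 * k = 2 * k + 1 by ring] at this
  have c3 : Nat.Coprime (4 * k + 3) (2 * k + 1) := by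
    have h1 := (Nat.coprime_add_mul_right_left 1 (2 * k + 1) 2).2 (Nat.coprime_one_left _)
    rwa [show 1 + 2 * (2 * k + 1) = 4 * k + 3 by ring] at h1
  have kq : (k : ℚ) ≠ 0 := by exact_mod_cast (by omega : k ≠ 0)
  have k3q : (4 * (k : ℚ) + 3) ≠ 0 := by positivity
  have k1q : (2 * (k : ℚ) + 1) ≠ 0 := by positivity
  have kp : (k : ℚ) + 1 ≠ 0 := by positivity
  have H1 : KDep 4 (Fin.cons (k : ℤ) (Fin.cons ((k * (4 * k + 3) : ℕ) : ℤ)
      (Fin.cons (((2 * k + 1) ^ 2 * (4 * k + 3) : ℕ) : ℤ) fun _ : Fin 1 => ((2 * k + 1 : ℕ) : ℤ))) :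
        Fin (1 + 3) → ℤ) := by
    refine block _ _ _ _ (fun _ => 2) (by simp) (by exact_mod_cast (by omega : k ≠ 0))
      (by exact_mod_cast (Nat.mul_ne_zero (by omega) (by omega) : k * (4 * k + 3) ≠ 0))
      (by positivity) (fun _ => by positivity) ?_ ?_
    · simp only [Finset.univ_unique, Finset.prod_singleton]
      push_cast
      rw [show ((2 * (k : ℚ) + 1) ^ (2 : ℤ)) = (2 * (k : ℚ) + 1) ^ 2 by norm_cast]
      ring
    · intro β γ δ α h
      simp only [Finset.univ_unique, Finset.prod_singleton] at h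
      have h1 := indep k (4 * k + 3) (2 * k + 1) (by omega) (by omega) (by omega) c1 c2 c3 (β + γ) (γ + δ)
        (2 * δ + α default) (by
          rw [← h]
          push_cast
          rw [mul_zpow, mul_zpow, zpow_add₀ kq, zpow_add₀ k3q, zpow_add₀ k1q, ← zpow_natCast, ← zpow_mul]
          push_cast
          ring)
      obtain ⟨h2, h3, h4⟩ := h1
      refine ⟨by linarith, by linarith, fun i => ?_⟩
      rw [Subsingleton.elim i default]
      linarith
  obtain ⟨V, hV⟩ : ∃ V, V = 4 * k ^ 2 + 3 * k + 1 := ⟨_, rfl⟩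
  have hV1 : 1 < V := by
    rw [hV]
    have : 0 < k := by omega
    omega
  have hVq : (V : ℚ) ≠ 0 := by exact_mod_cast (by omega : V ≠ 0)
  have o1 : Nat.Coprime (k + 1) 2 := by
    rw [Nat.coprime_comm, Nat.Prime.coprime_iff_not_dvd Nat.prime_two]
    omega
  have o2 : Nat.Coprime V 2 := by
    rw [Nat.coprime_comm, Nat.Prime.coprime_iff_not_dvd Nat.prime_two, hV]
    have : 3 * k = 2 * (9 * s + 3) := by omega
    rw [this]
    omega
  have o3 : Nat.Coprime (k + 1) V := by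
    have h1 : V + 1 * (k + 1) = 2 + (4 * k) * (k + 1) := by
      rw [hV]
      ring
    have h2 := (Nat.coprime_add_mul_right_right (k + 1) V 1)
    have h3 := (Nat.coprime_add_mul_right_right (k + 1) 2 (4 * k))
    rw [h1] at h2
    exact h2.1 (h3.2 o1)
  have H2 : KDep 4 (Fin.cons ((k + 1 : ℕ) : ℤ) (Fin.cons (V : ℤ)
      (Fin.cons ((4 * (k + 1) * V : ℕ) : ℤ) fun _ : Fin 1 => ((2 * (k + 1) : ℕ) : ℤ))) : Fin (1 + 3) → ℤ) := by
    refine block _ _ _ _ (fun _ => 2) (by simp) (by positivity) (by exact_mod_cast (by omega : V ≠ 0))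
      (by exact_mod_cast (by positivity : 4 * (k + 1) * V ≠ 0)) (fun _ => by positivity) ?_ ?_
    · simp only [Finset.univ_unique, Finset.prod_singleton]
      push_cast
      rw [show ((2 * ((k : ℚ) + 1)) ^ (2 : ℤ)) = (2 * ((k : ℚ) + 1)) ^ 2 by norm_cast]
      ring
    · intro β γ δ α h
      simp only [Finset.univ_unique, Finset.prod_singleton] at h
      have h1 := indep (k + 1) V 2 (by omega) (by omega) (by omega) o3 o1 o2 (β + δ + α default) (γ + δ)
        (2 * δ + α default) (by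
          rw [← h]
          push_cast
          rw [mul_zpow, mul_zpow, mul_zpow, zpow_add₀ kp, zpow_add₀ kp, zpow_add₀ hVq, zpow_add₀ (by norm_num),
            zpow_mul, show (2 : ℚ) ^ (2 : ℤ) = 4 by norm_num]
          ring)
      obtain ⟨h2, h3, h4⟩ := h1
      refine ⟨by linarith, by linarith, fun i => ?_⟩
      rw [Subsingleton.elim i default]
      linarith
  refine ⟨_, ?_, H1, ?_, ?_⟩
  · intro i
    refine Fin.cases ?_ (fun i => ?_) i
    · simp only [Fin.cons_zero]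
      exact_mod_cast (by omega : 1 < k)
    refine Fin.cases ?_ (fun i => ?_) i
    · simp only [Fin.cons_zero, Fin.cons_succ]
      exact_mod_cast (by nlinarith : 1 < k * (4 * k + 3))
    refine Fin.cases ?_ (fun i => ?_) i
    · simp only [Fin.cons_zero, Fin.cons_succ]
      exact_mod_cast (by nlinarith [sq_nonneg k] : 1 < (2 * k + 1) ^ 2 * (4 * k + 3))
    · simp only [Fin.cons_succ]
      exact_mod_cast (by omega : 1 < 2 * k + 1)
  · convert H2 using 1
    funext i
    refine Fin.cases ?_ (fun i => ?_) i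
    · simp only [Fin.cons_zero]
      push_cast
      ring
    refine Fin.cases ?_ (fun i => ?_) i
    · simp only [Fin.cons_zero, Fin.cons_succ]
      rw [hV]
      push_cast
      ring
    refine Fin.cases ?_ (fun i => ?_) i
    · simp only [Fin.cons_zero, Fin.cons_succ]
      rw [hV]
      push_cast
      ring
    · simp only [Fin.cons_succ]
      push_cast
      ring
  · simp only [Fin.cons_zero]
    exact_mod_cast (by omega : s < k)

end Pool.Agent.Q279.MDp
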